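import Pool.Agent.H606R2.Faith.Member

/-!
# Faithful drawability of `4`-regular edge-coloured graphs is `∃ℝ`-complete

The definitions are in `Pool.Agent.H606R2.Faith.Defs` (graphs and faithful drawings) and in
`Pool.Agent.ER.Defs` (the existential theory of the reals and the class `∃ℝ`).
-/

namespace Pool.Agent.Results.MP_8aa36a_lc.FaithfulComplete

open Pool.Agent.NPC Pool.Agent.NPC.ER Pool.Agent.NPC.ER.Faith

/-- Faithful drawability, restricted to properly edge-coloured `4`-regular graphs, is
`∃ℝ`-complete; moreover every problem of `∃ℝ` reduces to it by a polynomial-time reduction all of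
whose values are (codes of) properly edge-coloured `4`-regular graphs. -/
theorem result :
    ERComplete (lang fun G : CGraph => IsInput G ∧ Drawable G) ∧
    ∀ L, InER L → ∃ f : List Bool → CGraph, PolyTime (fun w => bits (f w)) ∧
      ∀ w, IsInput (f w) ∧ (w ∈ L ↔ Drawable (f w)) := by
  refine ⟨⟨faithful_mem, faithful_hard⟩, ?_⟩
  rintro L ⟨g, hg, hL⟩
  have h1 : PC (id : List Bool → List Bool) (bits : Fm → List Bool) g :=
    Pool.Agent.H642R2.TMSim.polyTime_toPC hg
  have h2 : Pool.Agent.NPC.Poly (fun φ : Fm => red (sysOf φ)) :=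
    Pool.Agent.NPC.Poly.comp poly_red (poly_sysOf Pool.Agent.NPC.Poly.id)
  have h3 : PC (id : List Bool → List Bool) (bits : CGraph → List Bool)
      (fun x => red (sysOf (g x))) :=
    PC.comp (g := fun φ : Fm => red (sysOf φ)) (eb := (bits : Fm → List Bool)) h2 h1
  have h4 : PC (id : List Bool → List Bool) (id : List Bool → List Bool)
      (fun x => bits (red (sysOf (g x)))) := h3
  refine ⟨fun x => red (sysOf (g x)), PC.toPolyTime h4, fun x => ⟨isInput_red _, ?_⟩⟩
  rw [hL, ← sat_sysOf, red_correct]

end Pool.Agent.Results.MP_8aa36a_lc.FaithfulComplete
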