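import Pool.Agent.H621R2.Fd.Mem

/-!
# Faithful drawability of 4-regular edge-coloured graphs is `∃ℝ`-complete

This answers Q1 of MP_8aa36a_lc affirmatively.

Idea of the proof.  The real numbers of a system of constraints `x = 1`, `x + y = z`, `x * y = z`
are the positions of concurrency points of colours on a line.  A prism with a proper edge-colouring
by four colours forces, by the theorem of Desargues, three of its four colour points to be distinct
and collinear.  A complete quadrilateral whose six edges have colour points on a common line forces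
the involution relation (quadrangular set), that is, `a + b = c + d` or
`(a - e) (b - e) = (c - e) (d - e)`.  All nondegeneracy conditions follow from the distinctness of
the lines.  Three more edges make the prism 4-regular (an octahedron), and two copies of the
quadrilateral joined by a perfect matching are 4-regular, too.
-/

set_option autoImplicit false

namespace Pool.Agent.Results.MP_8aa36a_lc.FourRegular

open Pool.Agent.NPC Pool.Agent.NPC.ER

/-- Explicitly given finite edge-coloured graphs: the list of the edges `(u, v, c)`, where `u` and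
`v` are the end vertices and `c` is the colour.  (There are no isolated vertices.) -/
abbrev CGraph : Type := List (ℕ × ℕ × ℕ)

/-- The set of the end vertices of an edge. -/
def ends (e : ℕ × ℕ × ℕ) : Sym2 ℕ := s(e.1, e.2.1)

/-- The colour of an edge. -/
def colour (e : ℕ × ℕ × ℕ) : ℕ := e.2.2

/-- The set of vertices. -/
def vertices (G : CGraph) : Finset ℕ := (G.map (fun e => e.1) ++ G.map (fun e => e.2.1)).toFinset

/-- The list describes a simple graph (no loops, no multiple edges) with a proper
edge-colouring. -/
structure IsProperlyColoured (G : CGraph) : Prop where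
  loopless : ∀ e ∈ G, ¬ (ends e).IsDiag
  simple : (G.map ends).Nodup
  proper : ∀ e ∈ G, ∀ f ∈ G, e ≠ f → ∀ v, v ∈ ends e → v ∈ ends f → colour e ≠ colour f

/-- Every vertex is an end vertex of exactly `k` edges. -/
def IsRegular (k : ℕ) (G : CGraph) : Prop :=
  ∀ v ∈ vertices G, (G.filter (fun e => v ∈ ends e)).length = k

/-- The line through the images of the end vertices of an edge. -/
noncomputable def edgeLine (p : ℕ → ℝ × ℝ) (e : ℕ × ℕ × ℕ) : AffineSubspace ℝ (ℝ × ℝ) :=
  line[ℝ, p e.1, p e.2.1]

/-- Existence of a faithful drawing: the vertices are mapped to distinct points of the plane, the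
supporting lines of the edges of any colour have a common point, and the supporting lines of any
two distinct edges are distinct. -/
def HasFaithfulDrawing (G : CGraph) : Prop :=
  ∃ p : ℕ → ℝ × ℝ, Set.InjOn p (vertices G : Set ℕ) ∧
    (∀ c : ℕ, ∃ P : ℝ × ℝ, ∀ e ∈ G, colour e = c → P ∈ edgeLine p e) ∧
    ∀ e ∈ G, ∀ f ∈ G, e ≠ f → edgeLine p e ≠ edgeLine p f

/-- Faithful drawability restricted to `k`-regular graphs: the input is a properly edge-coloured
`k`-regular graph, and the question is whether it has a faithful drawing. -/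
def FaithfulDrawability (k : ℕ) (G : CGraph) : Prop :=
  (IsProperlyColoured G ∧ IsRegular k G) ∧ HasFaithfulDrawing G

open Pool.Agent.H621R2 Pool.Agent.H621R2.Fd

theorem mem_vertices {G : CGraph} {v : ℕ} : v ∈ vertices G ↔ ∃ e ∈ G, e.1 = v ∨ e.2.1 = v := by
  rw [vertices, List.mem_toFinset]
  exact mem_vlist

theorem mem_ends {e : ℕ × ℕ × ℕ} {v : ℕ} : v ∈ ends e ↔ v = e.1 ∨ v = e.2.1 := Sym2.mem_iff

theorem proper_iff (G : CGraph) : IsProperlyColoured G ↔ Val G := by
  constructor
  · rintro ⟨h1, h2, h3⟩
    refine ⟨fun e he => ?_, h2, ?_⟩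
    · have := h1 e he
      rwa [ends, Sym2.mk_isDiag_iff] at this
    · intro e he f hf hne hv
      rcases hv with h | h | h | h
      · exact h3 e he f hf hne e.1 (mem_ends.2 (Or.inl rfl)) (mem_ends.2 (Or.inl h))
      · exact h3 e he f hf hne e.1 (mem_ends.2 (Or.inl rfl)) (mem_ends.2 (Or.inr h))
      · exact h3 e he f hf hne e.2.1 (mem_ends.2 (Or.inr rfl)) (mem_ends.2 (Or.inl h))
      · exact h3 e he f hf hne e.2.1 (mem_ends.2 (Or.inr rfl)) (mem_ends.2 (Or.inr h))
  · rintro ⟨h1, h2, h3⟩
    refine ⟨fun e he => ?_, h2, ?_⟩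
    · rw [ends, Sym2.mk_isDiag_iff]
      exact h1 e he
    · intro e he f hf hne v hv hv'
      refine h3 e he f hf hne ?_
      rcases mem_ends.1 hv with h | h <;> rcases mem_ends.1 hv' with h' | h'
      · exact Or.inl (h.symm.trans h')
      · exact Or.inr (Or.inl (h.symm.trans h'))
      · exact Or.inr (Or.inr (Or.inl (h.symm.trans h')))
      · exact Or.inr (Or.inr (Or.inr (h.symm.trans h')))

theorem regular_iff (k : ℕ) (G : CGraph) : IsRegular k G ↔ Reg k G := by
  have h : ∀ v, (G.filter (fun e => v ∈ ends e)).length = deg G v := by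
    intro v
    rw [deg]
    congr 1
    refine List.filter_congr ?_
    intro e _
    rw [decide_eq_decide, mem_ends]
    constructor
    · rintro (h | h)
      · exact Or.inl h.symm
      · exact Or.inr h.symm
    · rintro (h | h)
      · exact Or.inl h.symm
      · exact Or.inr h.symm
  constructor
  · intro h1 v hv
    rw [← h]
    exact h1 v (mem_vertices.2 hv)
  · intro h1 v hv
    rw [h]
    exact h1 v (mem_vertices.1 hv)

theorem drawing_iff {G : CGraph} (hG : Val G) : HasFaithfulDrawing G ↔ ∃ p P, FD G p P := by
  have hV : (vertices G : Set ℕ) = V G := by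
    ext v
    rw [Finset.mem_coe, mem_vertices]
    rfl
  constructor
  · rintro ⟨p, h1, h2, h3⟩
    rw [hV] at h1
    have hne : ∀ e ∈ G, p e.1 ≠ p e.2.1 := fun e he h =>
      hG.1 e he (h1 ⟨e, he, Or.inl rfl⟩ ⟨e, he, Or.inr rfl⟩ h)
    choose P hP using h2
    refine ⟨p, P, h1, ?_, ?_⟩
    · intro e he
      exact (mem_line_iff (hne e he)).1 (hP e.2.2 e he rfl)
    · rintro e he f hf hef ⟨h4, h5⟩
      exact h3 e he f hf hef (line_eq_of_col (hne e he) (hne f hf) h4 h5)
  · rintro ⟨p, P, h⟩
    have hne : ∀ e ∈ G, p e.1 ≠ p e.2.1 := fun e he h' =>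
      hG.1 e he (h.inj ⟨e, he, Or.inl rfl⟩ ⟨e, he, Or.inr rfl⟩ h')
    refine ⟨p, hV ▸ h.inj, fun c => ⟨P c, ?_⟩, ?_⟩
    · rintro e he rfl
      exact (mem_line_iff (hne e he)).2 (h.col e he)
    · intro e he f hf hef
      exact line_ne_of_not_col (hne e he) (h.dist e he f hf hef)

theorem graphOf_valid (S : List Con) : Val (graphOf S) ∧ Reg 4 (graphOf S) := by
  have hw : ∀ s ∈ specs (gatesOf S), WfS s := fun s hs =>
    wfS_specs (fun g hg => wfG_gatesOf hg) hs
  rw [graphOf, inst_eq]
  refine ⟨⟨fun e he => instR_loopless he, instR_nodup _ _, ?_⟩, ?_⟩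
  · intro e he f hf hne hv
    exact instR_proper hw he hf hne hv
  · intro v hv
    exact instR_deg hv

/-- **Main theorem.**  Faithful drawability restricted to 4-regular graphs is `∃ℝ`-complete.
The second part spells out the hardness: every language of the class `∃ℝ` has a polynomial-time
computable reduction `f` to faithful drawability all of whose values are properly edge-coloured
4-regular graphs. -/
theorem result : ERComplete (lang (FaithfulDrawability 4)) ∧
    ∀ L : Set (List Bool), InER L → ∃ f : List Bool → CGraph, PolyTime (fun w => bits (f w)) ∧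
      (∀ w, IsProperlyColoured (f w) ∧ IsRegular 4 (f w)) ∧
      ∀ w, w ∈ L ↔ HasFaithfulDrawing (f w) := by
  have hard : ∀ L : Set (List Bool), InER L → ∃ f : List Bool → CGraph,
      PolyTime (fun w => bits (f w)) ∧ (∀ w, IsProperlyColoured (f w) ∧ IsRegular 4 (f w)) ∧
      ∀ w, w ∈ L ↔ HasFaithfulDrawing (f w) := by
    rintro L ⟨g, hg, hL⟩
    have h1 : PC (id : List Bool → List Bool) (bits : Fm → List Bool) g :=
      H642R2.TMSim.polyTime_toPC hg
    have h2 : NPC.Poly (fun φ : Fm => graphOf (sysOf φ)) := poly_graphOf (poly_sysOf NPC.Poly.id)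
    have h3 : PC (id : List Bool → List Bool) (bits : CGraph → List Bool)
        (fun x => graphOf (sysOf (g x))) :=
      PC.comp (g := fun φ : Fm => graphOf (sysOf φ)) (eb := (bits : Fm → List Bool)) h2 h1
    have h4 : PC (id : List Bool → List Bool) (id : List Bool → List Bool)
      (fun x => bits (graphOf (sysOf (g x)))) := h3
    refine ⟨fun x => graphOf (sysOf (g x)), PC.toPolyTime h4, fun w => ?_, fun w => ?_⟩
    · have := graphOf_valid (sysOf (g w))
      exact ⟨(proper_iff _).2 this.1, (regular_iff _ _).2 this.2⟩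
    · rw [hL, ← sat_sysOf, drawing_iff (graphOf_valid _).1]
      exact graphOf_correct _
  refine ⟨⟨?_, ?_⟩, hard⟩
  · refine H670R2.InER.of_poly (F := fun G : CGraph => F 4 G) (poly_F 4) ?_
    intro G
    rw [FaithfulDrawability, etr_F, proper_iff, regular_iff]
    constructor
    · rintro ⟨h1, h2⟩
      exact ⟨h1, (drawing_iff h1.1).1 h2⟩
    · rintro ⟨h1, h2⟩
      exact ⟨h1, (drawing_iff h1.1).2 h2⟩
  · intro L hL
    obtain ⟨f, h1, h2, h3⟩ := hard L hL
    refine ⟨fun w => bits (f w), h1, fun w => ?_⟩
    rw [h3]
    constructor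
    · intro h
      exact ⟨f w, rfl, h2 w, h⟩
    · rintro ⟨G, hG, h⟩
      rw [← bits_injective hG]
      exact h.2

end Pool.Agent.Results.MP_8aa36a_lc.FourRegular
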